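import Mathlib
import Pool.Graph.R_seed8.Results.MP_a9fd20_al.UpperBound
import Pool.Agent.H30.SL.Main
import Pool.Agent.H30.SL.CER
import Pool.Agent.H64.SL.NRM
import Pool.Agent.H50.SL.EVA
import Pool.Agent.H14.SL.POL
import Pool.Agent.H40.SL.EXT

set_option autoImplicit false

namespace Pool.Agent.Results.MP_a9fd20_al.DegreeOfSl3

open Pool.Agent.Helper884.LieId

attribute [local instance 100] LieRing.ofAssociativeRing

/-- Over every field of characteristic zero no nonzero Lie polynomial of degree at most 7 vanishes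
identically on `sl_3`, some homogeneous Lie polynomial of degree 8 does, and `m_3 = 8`. -/
theorem result (K : Type) [Field K] [CharZero K] :
    (∀ f ∈ DegLE K 7, ¬ IsLieIdentity K (LieAlgebra.SpecialLinear.sl (Fin 3) K) f) ∧
    (∃ f ∈ Homog K 8, IsLieIdentity K (LieAlgebra.SpecialLinear.sl (Fin 3) K) f) ∧
    minDeg K 3 = 8 := by
  have h6 : Pool.Agent.H30.SL.PD K false 6 := fun c hc =>
    Pool.Agent.H30.SL.t_CER K c (Pool.Agent.H50.SL.t_EVA K c (fun A => hc A (by simp)))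
  have hE := Pool.Agent.H40.SL.t_EXT K
  have hP : ∀ D ≤ 6, Pool.Agent.H30.SL.PD K true D := by
    have h6' := (hE 6).1 (by norm_num) h6
    have h5 := (hE 5).2 h6'
    have h4 := (hE 4).2 h5
    have h3 := (hE 3).2 h4
    have h2 := (hE 2).2 h3
    have h1 := (hE 1).2 h2
    have h0 := (hE 0).2 h1
    intro D hD
    interval_cases D <;> assumption
  have hlow : ∀ f ∈ DegLE K 7,
      ¬ IsLieIdentity K (LieAlgebra.SpecialLinear.sl (Fin 3) K) f := by
    intro f hf hI
    exact hI.1 (Pool.Agent.H30.SL.main_zero Pool.Agent.H64.SL.t_NRM Pool.Agent.H14.SL.t_POL hP 7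
      le_rfl f hf hI.2)
  obtain ⟨⟨f, hf, -, hfI⟩, hup⟩ := Pool.Agent.Results.MP_a9fd20_al.UpperBound.result K 3 le_rfl
  norm_num at hf hup
  refine ⟨hlow, ⟨f, hf, hfI⟩, le_antisymm hup ?_⟩
  by_contra hlt
  have hle : Homog K 8 ≤ DegLE K 8 := by
    apply Submodule.span_mono
    intro x hx
    exact ⟨8, le_rfl, hx⟩
  have hne : {d | ∃ f ∈ DegLE K d,
      IsLieIdentity K (LieAlgebra.SpecialLinear.sl (Fin 3) K) f}.Nonempty := ⟨8, f, hle hf, hfI⟩
  have hmem := Nat.sInf_mem hne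
  obtain ⟨g, hg, hgI⟩ := hmem
  have hle2 : DegLE K (minDeg K 3) ≤ DegLE K 7 := by
    apply Submodule.span_mono
    rintro x ⟨e, he, hx⟩
    exact ⟨e, by omega, hx⟩
  exact hlow g (hle2 hg) hgI

end Pool.Agent.Results.MP_a9fd20_al.DegreeOfSl3
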